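import Pool.Agent.helper48.SG.SpecH

/-!
# H17: the density is Hoelder up to null sets (project sg:)
-/

set_option autoImplicit false

open MeasureTheory Set Metric Filter Topology
open scoped ENNReal NNReal ComplexConjugate

namespace Pool.Agent.SG

/-- measure of a closed ball intersected with the circle -/
theorem H17_inter (m : Measure ℂ) (h : m circᶜ = 0) (B : Set ℂ) : m (circ ∩ B) = m B := by
  refine le_antisymm (measure_mono inter_subset_right) ?_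
  calc m B ≤ m ((circ ∩ B) ∪ circᶜ) := by
        refine measure_mono ?_
        intro x hx
        by_cases hc : x ∈ circ
        · exact Or.inl ⟨hc, hx⟩
        · exact Or.inr hc
    _ ≤ m (circ ∩ B) + m circᶜ := measure_union_le _ _
    _ = m (circ ∩ B) := by rw [h, add_zero]

theorem H17 (h16 : H16_stmt) (h5 : B05_stmt) : H17_stmt := by
  intro Γ _ A W ν C hC
  obtain ⟨hlp, hlc, hlball, -, -⟩ := h5
  haveI : IsProbabilityMeasure lam := hlp
  haveI : IsProbabilityMeasure ν := hC.stat.prob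
  have hνc : ν circᶜ = 0 := hC.stat.supp
  have hC1 : 1 ≤ C := hC.one
  have hC0 : 0 < C := lt_of_lt_of_le one_pos hC1
  obtain ⟨K₁, α, hK₁, hα, hα1, hosc⟩ := h16 Γ A W ν C hC
  have hac : ν ≪ lam := by
    refine Measure.AbsolutelyContinuous.mk ?_
    intro s hs h0
    have := hC.nu_le s hs
    rw [h0, mul_zero] at this
    exact le_antisymm this bot_le
  have hwd : lam.withDensity (ν.rnDeriv lam) = ν := Measure.withDensity_rnDeriv_eq ν lam hac
  have hle : ∀ᵐ ξ ∂lam, ν.rnDeriv lam ξ ≤ ENNReal.ofReal C := by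
    refine ae_le_of_forall_setLIntegral_le_of_sigmaFinite (Measure.measurable_rnDeriv ν lam) ?_
    intro s hs _
    rw [← withDensity_apply _ hs, hwd, setLIntegral_const]
    exact hC.nu_le s hs
  set f : ℂ → ℝ := fun ξ => min (ν.rnDeriv lam ξ).toReal C with hf
  have hfm : Measurable f :=
    (Measure.measurable_rnDeriv ν lam).ennreal_toReal.min measurable_const
  have hf0 : ∀ ξ, 0 ≤ f ξ := fun ξ => le_min ENNReal.toReal_nonneg hC0.le
  have hfC : ∀ ξ, f ξ ≤ C := fun ξ => min_le_right _ _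
  have hfe : ∀ ξ, ν.rnDeriv lam ξ ≤ ENNReal.ofReal C → f ξ = (ν.rnDeriv lam ξ).toReal := by
    intro ξ hξ
    refine min_eq_left ?_
    exact ENNReal.toReal_le_of_le_ofReal hC0.le hξ
  have hbes := Besicovitch.ae_tendsto_rnDeriv ν lam
  have hcirc : ∀ᵐ ξ ∂lam, ξ ∈ circ := by
    rw [ae_iff]
    exact hlc
  -- key one sided estimate
  have hkey : ∀ ξ ζ : ℂ, ‖ξ‖ = 1 → ‖ζ‖ = 1 →
      ν.rnDeriv lam ξ ≤ ENNReal.ofReal C → ν.rnDeriv lam ζ ≤ ENNReal.ofReal C →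
      Tendsto (fun r => ν (closedBall ξ r) / lam (closedBall ξ r)) (𝓝[>] 0)
        (𝓝 (ν.rnDeriv lam ξ)) →
      Tendsto (fun r => ν (closedBall ζ r) / lam (closedBall ζ r)) (𝓝[>] 0)
        (𝓝 (ν.rnDeriv lam ζ)) → ξ ≠ ζ → 2 * ‖ξ - ζ‖ ≤ 1 →
      f ξ ≤ (1 + K₁ * (2 * ‖ξ - ζ‖) ^ α) * f ζ := by
    intro ξ ζ hξ hζ hξC hζC hξt hζt hne hr1
    have hd : 0 < ‖ξ - ζ‖ := norm_pos_iff.mpr (sub_ne_zero.mpr hne)
    have hr : 0 < 2 * ‖ξ - ζ‖ := by linarith
    have hξt' := (ENNReal.tendsto_toReal (ne_top_of_le_ne_top ENNReal.ofReal_ne_top hξC)).comp hξt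
    have hζt' := (ENNReal.tendsto_toReal (ne_top_of_le_ne_top ENNReal.ofReal_ne_top hζC)).comp hζt
    rw [hfe ξ hξC, hfe ζ hζC]
    refine le_of_tendsto_of_tendsto hξt' (hζt'.const_mul (1 + K₁ * (2 * ‖ξ - ζ‖) ^ α)) ?_
    have hev : ∀ᶠ ρ : ℝ in 𝓝[>] (0 : ℝ), ρ ∈ Ioo (0 : ℝ) ‖ξ - ζ‖ := Ioo_mem_nhdsGT hd
    filter_upwards [hev] with ρ hρ
    obtain ⟨hρ0, hρ1⟩ := hρ
    simp only [Function.comp_apply, ENNReal.toReal_div]
    have hsub1 : circ ∩ closedBall ξ ρ ⊆ closedBall ξ (2 * ‖ξ - ζ‖) ∩ circ := by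
      rintro x ⟨hx1, hx2⟩
      exact ⟨closedBall_subset_closedBall (by linarith) hx2, hx1⟩
    have hsub2 : circ ∩ closedBall ζ ρ ⊆ closedBall ξ (2 * ‖ξ - ζ‖) ∩ circ := by
      rintro x ⟨hx1, hx2⟩
      refine ⟨?_, hx1⟩
      rw [mem_closedBall, dist_eq_norm] at hx2 ⊢
      calc ‖x - ξ‖ ≤ ‖x - ζ‖ + ‖ζ - ξ‖ := norm_sub_le_norm_sub_add_norm_sub x ζ ξ
        _ ≤ ‖ξ - ζ‖ + ‖ξ - ζ‖ := by
            rw [norm_sub_rev ζ ξ]
            linarith
        _ = 2 * ‖ξ - ζ‖ := by ring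
    have hmc : MeasurableSet circ := isClosed_sphere.measurableSet
    have h := hosc ξ (2 * ‖ξ - ζ‖) (circ ∩ closedBall ξ ρ) (circ ∩ closedBall ζ ρ) hξ hr hr1
      (hmc.inter isClosed_closedBall.measurableSet) (hmc.inter isClosed_closedBall.measurableSet)
      hsub1 hsub2
    simp only [Measure.real, H17_inter ν hνc, H17_inter lam hlc] at h
    have hρ2 : ρ ≤ 2 := by linarith
    have hpos : ∀ x : ℂ, ‖x‖ = 1 → 0 < (lam (closedBall x ρ)).toReal := by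
      intro x hx
      refine ENNReal.toReal_pos ?_ (measure_ne_top _ _)
      have h1 := (hlball x ρ hx hρ0.le hρ2).1
      have h2 : 0 < ENNReal.ofReal (ρ / 4) := ENNReal.ofReal_pos.mpr (by linarith)
      exact (lt_of_lt_of_le h2 h1).ne'
    have hp1 := hpos ξ hξ
    have hp2 := hpos ζ hζ
    rw [div_le_iff₀ hp1]
    have hgoal : (ν (closedBall ξ ρ)).toReal * (lam (closedBall ζ ρ)).toReal ≤
        ((1 + K₁ * (2 * ‖ξ - ζ‖) ^ α) * ((ν (closedBall ζ ρ)).toReal /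
          (lam (closedBall ζ ρ)).toReal) * (lam (closedBall ξ ρ)).toReal) *
          (lam (closedBall ζ ρ)).toReal := by
      calc (ν (closedBall ξ ρ)).toReal * (lam (closedBall ζ ρ)).toReal
          ≤ (1 + K₁ * (2 * ‖ξ - ζ‖) ^ α) *
            ((ν (closedBall ζ ρ)).toReal * (lam (closedBall ξ ρ)).toReal) := h
        _ = _ := by field_simp
    exact le_of_mul_le_mul_right hgoal hp2
  have h2C : 0 < 2 * C * (1 + K₁) := by positivity
  have hCK : C ≤ 2 * C * (1 + K₁) := by nlinarith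
  -- two sided estimate
  have htwo : ∀ ξ ζ : ℂ, ‖ξ‖ = 1 → ‖ζ‖ = 1 →
      ν.rnDeriv lam ξ ≤ ENNReal.ofReal C → ν.rnDeriv lam ζ ≤ ENNReal.ofReal C →
      Tendsto (fun r => ν (closedBall ξ r) / lam (closedBall ξ r)) (𝓝[>] 0)
        (𝓝 (ν.rnDeriv lam ξ)) →
      Tendsto (fun r => ν (closedBall ζ r) / lam (closedBall ζ r)) (𝓝[>] 0)
        (𝓝 (ν.rnDeriv lam ζ)) →
      f ξ - f ζ ≤ 2 * C * (1 + K₁) * ‖ξ - ζ‖ ^ α := by
    intro ξ ζ hξ hζ hξC hζC hξt hζt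
    by_cases hne : ξ = ζ
    · subst hne
      rw [sub_self]
      exact mul_nonneg h2C.le (Real.rpow_nonneg (norm_nonneg _) _)
    · have hd : 0 < ‖ξ - ζ‖ := norm_pos_iff.mpr (sub_ne_zero.mpr hne)
      have h2α : (2 * ‖ξ - ζ‖) ^ α ≤ 2 * ‖ξ - ζ‖ ^ α := by
        rw [Real.mul_rpow (by norm_num) hd.le]
        have h2 : (2 : ℝ) ^ α ≤ 2 := by
          calc (2 : ℝ) ^ α ≤ (2 : ℝ) ^ (1 : ℝ) :=
                Real.rpow_le_rpow_of_exponent_le (by norm_num) hα1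
            _ = 2 := Real.rpow_one 2
        exact mul_le_mul_of_nonneg_right h2 (Real.rpow_nonneg hd.le _)
      have hp0 : 0 ≤ ‖ξ - ζ‖ ^ α := Real.rpow_nonneg hd.le _
      by_cases hr1 : 2 * ‖ξ - ζ‖ ≤ 1
      · have h1 := hkey ξ ζ hξ hζ hξC hζC hξt hζt hne hr1
        have h2 : f ξ - f ζ ≤ K₁ * (2 * ‖ξ - ζ‖) ^ α * f ζ := by linarith
        calc f ξ - f ζ ≤ K₁ * (2 * ‖ξ - ζ‖) ^ α * f ζ := h2
          _ ≤ K₁ * (2 * ‖ξ - ζ‖ ^ α) * C := by
              refine mul_le_mul (mul_le_mul_of_nonneg_left h2α hK₁.le) (hfC ζ) (hf0 ζ) ?_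
              positivity
          _ ≤ 2 * C * (1 + K₁) * ‖ξ - ζ‖ ^ α := by
              have : 0 ≤ 2 * C * ‖ξ - ζ‖ ^ α := by positivity
              nlinarith
      · push Not at hr1
        have h1 : (1 : ℝ) ≤ (2 * ‖ξ - ζ‖) ^ α := Real.one_le_rpow hr1.le hα.le
        calc f ξ - f ζ ≤ C := by
              have := hfC ξ
              have := hf0 ζ
              linarith
          _ ≤ C * (2 * ‖ξ - ζ‖ ^ α) := by
              have : 1 ≤ 2 * ‖ξ - ζ‖ ^ α := h1.trans h2α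
              nlinarith
          _ ≤ 2 * C * (1 + K₁) * ‖ξ - ζ‖ ^ α := by
              have : 0 ≤ 2 * C * K₁ * ‖ξ - ζ‖ ^ α := by positivity
              nlinarith
  refine ⟨f, 2 * C * (1 + K₁), α, hα, hα1, hfm, hf0, fun ξ => (hfC ξ).trans hCK, ?_, ?_⟩
  · conv_lhs => rw [← hwd]
    refine withDensity_congr_ae ?_
    filter_upwards [hle] with ξ hξ
    rw [hfe ξ hξ, ENNReal.ofReal_toReal (ne_top_of_le_ne_top ENNReal.ofReal_ne_top hξ)]
  · filter_upwards [hle, hbes, hcirc] with ξ h1 h2 h3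
    filter_upwards [hle, hbes, hcirc] with ζ h4 h5 h6
    have hξ : ‖ξ‖ = 1 := by simpa [circ] using h3
    have hζ : ‖ζ‖ = 1 := by simpa [circ] using h6
    rw [abs_le]
    constructor
    · have h7 := htwo ζ ξ hζ hξ h4 h1 h5 h2
      rw [norm_sub_rev] at h7
      linarith
    · exact htwo ξ ζ hξ hζ h1 h4 h2 h5

end Pool.Agent.SG
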