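import Pool.Agent.helper56.SG.SpecG

/-!
# HOL: mean value property of holomorphic functions (project sg:)
-/

set_option autoImplicit false

open MeasureTheory Set Metric Filter Topology
open scoped ENNReal NNReal ComplexConjugate
open Pool.Agent.SG

noncomputable section

namespace Pool.Agent.SGG

theorem HOL (hMOB : MOB_stmt) (hTAU : TAU_stmt) (hPPF : PPF_stmt) (hHYC : HYC_stmt)
    (hCHV : CHV_stmt) (hKNB : KNB_stmt) (hRAD : RAD_stmt) : HOL_stmt := by
  intro t ht0 ht1 x hx U F hU hF hsub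
  obtain ⟨hN, hK⟩ := hKNB t ht0 ht1
  obtain ⟨hcbx, -, -⟩ := hK x hx
  have h0 : (0 : ℂ) ∈ ball (0 : ℂ) 1 := mem_ball_self one_pos
  obtain ⟨hcb0, -, -⟩ := hK 0 h0
  obtain ⟨-, -, hpp0, hppc, -⟩ := hPPF
  -- continuity of pp x on the ball
  have hppx : ContinuousOn (fun y : ℂ => pp x y) (ball (0 : ℂ) 1) := by
    have h1 : ContinuousOn (fun y : ℂ => ((x, y) : ℂ × ℂ)) (ball (0 : ℂ) 1) :=
      (Continuous.prodMk continuous_const continuous_id).continuousOn
    have h2 := hppc.comp h1 (fun y hy => mk_mem_prod hx hy)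
    exact h2
  have hg : CB (fun y => ker t x y * (F y).re) := by
    intro y hy
    by_cases hty : t ≤ pp x y
    · have hyU := hsub y hy hty
      have hFc : ContinuousAt F y := (hF.differentiableAt (hU.mem_nhds hyU)).continuousAt
      have hre : ContinuousAt (fun y => (F y).re) y := Complex.continuous_re.continuousAt.comp hFc
      exact (hcbx y hy).mul hre.continuousWithinAt
    · push Not at hty
      have hnb : ∀ᶠ z in 𝓝[ball (0 : ℂ) 1] y, pp x z < t :=
        (hppx y hy).eventually (Iio_mem_nhds hty)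
      have hev : (fun y => ker t x y * (F y).re) =ᶠ[𝓝[ball (0 : ℂ) 1] y] fun _ => (0 : ℝ) := by
        filter_upwards [hnb] with z hz
        have : ker t x z = 0 := by
          unfold ker
          exact max_eq_left (by linarith)
        rw [this, zero_mul]
      have hval : ker t x y * (F y).re = 0 := by
        have : ker t x y = 0 := by
          unfold ker
          exact max_eq_left (by linarith)
        rw [this, zero_mul]
      exact (continuousWithinAt_const.congr_of_eventuallyEq hev hval)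
  obtain ⟨a, b, hab, hm0⟩ := hTAU x hx
  obtain ⟨-, hq, hball, -, -, hder, hnorm, hppinv, hmeas⟩ := hMOB a b hab
  have hae : ∀ᵐ z ∂hyp, z ∈ ball (0 : ℂ) 1 := by
    rw [ae_iff]
    exact hHYC.1
  have hppm : ∀ z ∈ ball (0 : ℂ) 1, pp x (mob a b z) = 1 - ‖z‖ ^ 2 := by
    intro z hz
    rw [← hpp0 z, ← hppinv 0 h0 z hz, hm0]
  have hkerm : ∀ z ∈ ball (0 : ℂ) 1, ker t x (mob a b z) = ker t 0 z := by
    intro z hz
    unfold ker
    rw [hppm z hz, hpp0 z]
  have hchv := hCHV a b hab _ hg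
  have hcongr : ∫ z, ker t x (mob a b z) * (F (mob a b z)).re ∂hyp =
      ∫ z, ker t 0 z * ((F ∘ mob a b) z).re ∂hyp := by
    refine integral_congr_ae ?_
    filter_upwards [hae] with z hz
    rw [hkerm z hz]; rfl
  have hρ : Real.sqrt (1 - t) < 1 := by
    rw [Real.sqrt_lt' one_pos]
    linarith
  have hmc : ContinuousOn (mob a b) (ball (0 : ℂ) 1) :=
    fun z hz => (hder z hz).continuousAt.continuousWithinAt
  have hVo : IsOpen (ball (0 : ℂ) 1 ∩ mob a b ⁻¹' U) :=
    hmc.isOpen_inter_preimage isOpen_ball hU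
  have hVd : DifferentiableOn ℂ (F ∘ mob a b) (ball (0 : ℂ) 1 ∩ mob a b ⁻¹' U) := by
    refine hF.comp (fun z hz => (hder z hz.1).differentiableAt.differentiableWithinAt) ?_
    exact fun z hz => hz.2
  have hker0 : ∀ z : ℂ, ker t 0 z = max 0 (1 - ‖z‖ ^ 2 - t) := by
    intro z
    unfold ker
    rw [hpp0 z]
  have hrad := hRAD (ker t 0) (Real.sqrt (1 - t)) hcb0 hρ ?_ ?_ (ball (0 : ℂ) 1 ∩ mob a b ⁻¹' U)
    (F ∘ mob a b) hVo hVd ?_
  · have hfx : ((F ∘ mob a b) 0).re = (F x).re := by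
      simp only [Function.comp_apply, hm0]
    rw [hfx] at hrad
    unfold KK
    rw [← hchv, hcongr, hrad]
    change (NN t)⁻¹ * (NN t * (F x).re) = (F x).re
    rw [← mul_assoc, inv_mul_cancel₀ hN.ne', one_mul]
  · intro z _ hz
    rw [hker0]
    refine max_eq_left ?_
    have h1 : 1 - t < ‖z‖ ^ 2 := Real.lt_sq_of_sqrt_lt hz
    linarith
  · intro z _ w _ hzw
    rw [hker0, hker0, hzw]
  · intro z hz
    have hz1 : z ∈ ball (0 : ℂ) 1 := by
      rw [mem_ball_zero_iff]
      linarith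
    refine ⟨hz1, ?_⟩
    refine hsub _ (hball z hz1) ?_
    rw [hppm z hz1]
    have h1 : ‖z‖ ^ 2 ≤ 1 - t := by
      have h2 : (0:ℝ) ≤ 1 - t := by linarith
      calc ‖z‖ ^ 2 ≤ (Real.sqrt (1 - t)) ^ 2 := by
            exact pow_le_pow_left₀ (norm_nonneg z) hz 2
        _ = 1 - t := Real.sq_sqrt h2
    linarith

end Pool.Agent.SGG
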