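import Pool.Agent.helper17.SG.SpecM

/-!
# M10: typical points (project sg:)
-/

set_option autoImplicit false

open MeasureTheory Set Metric Filter Topology
open scoped ENNReal NNReal ComplexConjugate

namespace Pool.Agent.SG

theorem M10 (h1 : M01_stmt) (h3 : M03_stmt) (h4 : M04_stmt) (h5 : M05_stmt) (h6 : M06_stmt)
    (h8 : B08_stmt) (h14 : B14_stmt) : M10_stmt := by
  classical
  intro Γ _ A W ν hS
  have hst : Stat A W ν := hS.toStat
  haveI : IsProbabilityMeasure ν := hst.prob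
  obtain ⟨hInf, hCount, -⟩ := h14 Γ A
  haveI : Infinite Γ := hInf hS.nonel
  haveI : Countable Γ := hCount hS.disc
  obtain ⟨hprob, hcirc, -, -, -, -⟩ := h1 Γ A W ν hst
  obtain ⟨M, hM1, hM⟩ := h6 Γ A W hS.disc
  obtain ⟨C8, hC8, hC8b⟩ := h8 Γ A hS.disc M hM1
  refine ⟨M, hM1, ?_⟩
  intro ε hε
  set e : ℝ≥0∞ := min ε 1 with he
  have he0 : e ≠ 0 := by
    rw [he]
    exact (lt_min (pos_iff_ne_zero.mpr hε) one_pos).ne'
  have he1 : e ≤ 1 := min_le_right _ _
  have het : e ≠ ⊤ := ne_top_of_le_ne_top ENNReal.one_ne_top he1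
  have heε : e ≤ ε := min_le_left _ _
  have hepos : 0 < e.toReal := ENNReal.toReal_pos he0 het
  obtain ⟨r, hr, hball⟩ := h4 ν hst.supp (h3 Γ A W ν hst hS.nonel) (e / 2)
    (ENNReal.div_ne_zero.mpr ⟨he0, ENNReal.ofNat_ne_top⟩)
  set C : ℝ := max 1 (1 / r) with hC
  have hC1 : 1 ≤ C := le_max_left _ _
  have hC0 : 0 < C := lt_of_lt_of_le one_pos hC1
  have hCr : 1 / C ≤ r := by
    rw [div_le_iff₀ hC0]
    have h : 1 / r ≤ C := le_max_right _ _
    rw [div_le_iff₀ hr] at h
    linarith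
  have hballC : ∀ z : ℂ, ν (closedBall z (1 / C)) ≤ e / 2 := fun z =>
    le_trans (measure_mono (closedBall_subset_closedBall hCr)) (hball z)
  have h5' := h5 Γ A W ν hst C (e / 2) hC0 hballC
  set c : ℝ := e.toReal / (2 * C8) with hc
  have hcpos : 0 < c := div_pos hepos (by positivity)
  refine ⟨C, c, hC1, hcpos, ?_⟩
  intro τ hτ hτ1
  have hmeas : MeasurableSet (typ A W M C c τ) := by
    have heq : typ A W M C c τ = ⋃ w ∈ {w : Γ | τ / M ≤ A.kk w ∧ A.kk w ≤ τ ∧
        ENNReal.ofReal (c * A.kk w) ≤ W.hit 1 w}, (circ ∩ closedBall (A.pt w) (C * A.kk w)) := by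
      ext η
      simp only [typ, mem_setOf_eq, mem_iUnion, mem_inter_iff, mem_closedBall_iff_norm,
        exists_prop]
      constructor
      · rintro ⟨h1, w, h2, h3, h4, h5⟩
        exact ⟨w, ⟨h2, h3, h5⟩, h1, h4⟩
      · rintro ⟨w, ⟨h2, h3, h5⟩, h1, h4⟩
        exact ⟨h1, w, h2, h3, h4, h5⟩
    rw [heq]
    refine MeasurableSet.biUnion (Set.to_countable _) ?_
    intro w _
    exact (isClosed_sphere.measurableSet).inter isClosed_closedBall.measurableSet
  refine ⟨hmeas, ?_⟩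
  obtain ⟨π, hπ1, hπ2, hπ3, hπ4⟩ := hM τ hτ hτ1
  rw [hπ4 ν hst _ hmeas.compl]
  have hterm : ∀ w, π w * nux A ν w (typ A W M C c τ)ᶜ ≤ π w * (e / 2) +
      ENNReal.ofReal c * {γ | τ / M ≤ A.kk γ ∧ A.kk γ ≤ τ}.indicator A.ke w := by
    intro w
    by_cases hw : π w = 0
    · rw [hw]; simp
    · obtain ⟨hw1, hw2⟩ := hπ3 w hw
      by_cases hg : ENNReal.ofReal (c * A.kk w) ≤ W.hit 1 w
      · refine le_trans ?_ (le_add_of_nonneg_right (by positivity))
        refine mul_le_mul_right ?_ _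
        calc nux A ν w (typ A W M C c τ)ᶜ
            ≤ nux A ν w (circᶜ ∪ (closedBall (A.pt w) (C * A.kk w))ᶜ) := by
              refine measure_mono ?_
              intro η hη
              by_contra hcon
              simp only [mem_union, mem_compl_iff, not_or, not_not,
                mem_closedBall_iff_norm] at hcon
              exact hη ⟨hcon.1, w, hw1, hw2, hcon.2, hg⟩
          _ ≤ nux A ν w circᶜ + nux A ν w (closedBall (A.pt w) (C * A.kk w))ᶜ :=
              measure_union_le _ _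
          _ ≤ 0 + e / 2 := add_le_add (le_of_eq (hcirc w)) (h5' w)
          _ = e / 2 := zero_add _
      · refine le_trans ?_ (le_add_of_nonneg_left (by positivity))
        rw [Set.indicator_of_mem (show w ∈ {γ | τ / M ≤ A.kk γ ∧ A.kk γ ≤ τ} from ⟨hw1, hw2⟩)]
        haveI := hprob w
        calc π w * nux A ν w (typ A W M C c τ)ᶜ ≤ π w * 1 :=
              mul_le_mul_right prob_le_one _
          _ = π w := mul_one _
          _ ≤ W.hit 1 w := hπ2 w
          _ ≤ ENNReal.ofReal (c * A.kk w) := (not_le.mp hg).le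
          _ = ENNReal.ofReal c * A.ke w := by
              rw [ENNReal.ofReal_mul hcpos.le]; rfl
  calc ∑' w, π w * nux A ν w (typ A W M C c τ)ᶜ
      ≤ ∑' w, (π w * (e / 2) +
        ENNReal.ofReal c * {γ | τ / M ≤ A.kk γ ∧ A.kk γ ≤ τ}.indicator A.ke w) :=
        ENNReal.tsum_le_tsum hterm
    _ = (∑' w, π w) * (e / 2) +
        ENNReal.ofReal c * ∑' w, {γ | τ / M ≤ A.kk γ ∧ A.kk γ ≤ τ}.indicator A.ke w := by
        rw [ENNReal.tsum_add, ENNReal.tsum_mul_right, ENNReal.tsum_mul_left]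
    _ ≤ 1 * (e / 2) + ENNReal.ofReal c * ENNReal.ofReal C8 := by
        rw [hπ1]
        exact add_le_add le_rfl (mul_le_mul_right (hC8b τ hτ hτ1).2 _)
    _ = e / 2 + e / 2 := by
        rw [one_mul, ← ENNReal.ofReal_mul hcpos.le]
        congr 1
        have : c * C8 = e.toReal / 2 := by
          rw [hc]; field_simp
        rw [this, ENNReal.ofReal_div_of_pos (by norm_num : (0:ℝ) < 2), ENNReal.ofReal_toReal het]
        norm_num
    _ = e := ENNReal.add_halves e
    _ ≤ ε := heε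

end Pool.Agent.SG
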